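import Pool.Agent.T9h33.Sep

/-!
A walk with few close approaches is thin.
-/

set_option autoImplicit false

namespace Pool.Agent.T9h81.SP

open Pool.Agent.T9h33.Ca (ca d1)

theorem thin {N : ℕ} {ω : Fin (N + 1) → ℤ × ℤ} {K s : ℝ} (hK : 1 ≤ K) (hs1 : 0.47 ≤ s)
    (hcon : ∀ t k : ℕ, 1 ≤ k → (ca N t k ω : ℝ) ≤ Real.exp (K * Real.log (k + 1) ^ 4) * s)
    {k : ℕ} (hk : 1 ≤ k) :
    (∀ s' : ℕ, (Nat.card (T9h33.Sep.bd N k ω (T9h33.Sep.tau N k ω) s') : ℝ) ≤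
      Real.exp ((16 * K + 60) * Real.log (k + 1) ^ 4) * s) ∧
    ∀ L : ℕ, Real.exp ((16 * K + 60) * Real.log (k + 1) ^ 4) * s ≤ L → ∀ a : ℤ × ℤ,
      ∃ y : ℤ × ℤ, (a.1 + k ≤ y.1 ∧ y.1 + k ≤ a.1 + L) ∧ (a.2 + k ≤ y.2 ∧ y.2 + k ≤ a.2 + L) ∧
        ∀ i, (k : ℤ) < d1 (ω i) y := by
  have hlog2 : (0.69 : ℝ) < Real.log 2 := by
    have := Real.log_two_gt_d9
    linarith
  have hk' : (1 : ℝ) ≤ k := by exact_mod_cast hk
  obtain ⟨l, hl⟩ : ∃ l, l = Real.log ((k : ℝ) + 1) := ⟨_, rfl⟩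
  have hl1 : 0.69 < l := by
    rw [hl]
    exact hlog2.trans_le (Real.log_le_log (by norm_num) (by linarith))
  have hl3 : 0.32 ≤ l ^ 3 := by
    calc (0.32 : ℝ) ≤ 0.69 ^ 3 := by norm_num
      _ ≤ l ^ 3 := by gcongr
  have hl4 : l ^ 4 = l ^ 3 * l := by ring
  have hl5 : 0.22 ≤ l ^ 4 := by rw [hl4]; nlinarith
  rw [← hl]
  have hbase : Real.exp (K * Real.log (((2 * k + 1 : ℕ) : ℝ) + 1) ^ 4) ≤
      Real.exp (16 * K * l ^ 4) := by
    apply Real.exp_le_exp.2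
    have e1 : (((2 * k + 1 : ℕ) : ℝ) + 1) = 2 * ((k : ℝ) + 1) := by push_cast; ring
    rw [e1, Real.log_mul (by norm_num) (by linarith), ← hl]
    have h3 : Real.log 2 ≤ l := by
      rw [hl]
      exact Real.log_le_log (by norm_num) (by linarith)
    have h4 : (Real.log 2 + l) ^ 4 ≤ (2 * l) ^ 4 :=
      pow_le_pow_left₀ (by linarith) (by linarith) 4
    calc K * (Real.log 2 + l) ^ 4 ≤ K * (2 * l) ^ 4 := by gcongr
      _ = 16 * K * l ^ 4 := by ring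
  have hca : ∀ t, (ca N t (2 * k + 1) ω : ℝ) ≤ Real.exp (16 * K * l ^ 4) * s := by
    intro t
    refine (hcon t (2 * k + 1) (by omega)).trans ?_
    gcongr
  -- `16 (2 k + 1)^2 ≤ exp (60 l^4)`
  have hpoly : 16 * (2 * (k : ℝ) + 1) ^ 2 ≤ Real.exp (60 * l ^ 4) := by
    have h3 : 2 * (k : ℝ) + 1 ≤ 2 * (k + 1) := by linarith
    have h4 : ((k : ℝ) + 1) ^ 2 = Real.exp (2 * l) := by
      rw [show (2 : ℝ) * l = ((2 : ℕ) : ℝ) * l by norm_num, Real.exp_nat_mul, hl,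
        Real.exp_log (by linarith)]
    have h5 : (64 : ℝ) ≤ Real.exp 4.2 := by
      have h6 : (64 : ℝ) = Real.exp (6 * Real.log 2) := by
        rw [show (6 : ℝ) * Real.log 2 = ((6 : ℕ) : ℝ) * Real.log 2 by norm_num,
          Real.exp_nat_mul, Real.exp_log (by norm_num)]
        norm_num
      rw [h6]
      apply Real.exp_le_exp.2
      have := Real.log_two_lt_d9
      linarith
    calc 16 * (2 * (k : ℝ) + 1) ^ 2 ≤ 16 * (2 * ((k : ℝ) + 1)) ^ 2 := by gcongr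
      _ = 64 * ((k : ℝ) + 1) ^ 2 := by ring
      _ ≤ Real.exp 4.2 * Real.exp (2 * l) := by
          rw [h4]
          gcongr
      _ = Real.exp (4.2 + 2 * l) := by rw [Real.exp_add]
      _ ≤ Real.exp (60 * l ^ 4) := by
          apply Real.exp_le_exp.2
          have h6 : 2 * l ≤ 10 * l ^ 4 := by rw [hl4]; nlinarith
          linarith
  have hE : Real.exp ((16 * K + 60) * l ^ 4) =
      Real.exp (16 * K * l ^ 4) * Real.exp (60 * l ^ 4) := by
    rw [← Real.exp_add]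
    congr 1
    ring
  rw [hE]
  obtain ⟨E1, hE1⟩ : ∃ E1, E1 = Real.exp (16 * K * l ^ 4) := ⟨_, rfl⟩
  obtain ⟨E2, hE2⟩ : ∃ E2, E2 = Real.exp (60 * l ^ 4) := ⟨_, rfl⟩
  rw [← hE1] at hca
  rw [← hE2] at hpoly
  rw [← hE1, ← hE2]
  have hE11 : 1 ≤ E1 := by
    rw [hE1, ← Real.exp_zero]
    exact Real.exp_le_exp.2 (by positivity)
  have hE20 : 0 < E2 := by rw [hE2]; exact Real.exp_pos _
  refine ⟨fun s' => ?_, fun L hL a => ?_⟩
  · have h3 := T9h33.Sep.bd_card N k ω s'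
    have h4 : (Nat.card (T9h33.Sep.bd N k ω (T9h33.Sep.tau N k ω) s') : ℝ) ≤
        (2 * (k : ℝ) + 1) ^ 2 * ca N (s' / (2 * k + 1) ^ 2) (2 * k + 1) ω := by exact_mod_cast h3
    refine h4.trans ?_
    have h5 := hca (s' / (2 * k + 1) ^ 2)
    calc (2 * (k : ℝ) + 1) ^ 2 * ca N (s' / (2 * k + 1) ^ 2) (2 * k + 1) ω
        ≤ E2 * (E1 * s) := by
          apply mul_le_mul _ h5 (Nat.cast_nonneg _) hE20.le
          have : 0 ≤ (2 * (k : ℝ) + 1) ^ 2 := by positivity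
          linarith
      _ = E1 * E2 * s := by ring
  · by_contra hno
    -- the inner square is covered
    have hLk : 4 * ((2 * (k : ℝ) + 1) ^ 2 * (E1 * s)) + 2 * (2 * k + 1) + 2 * k < L := by
      have h3 : E1 * s * (16 * (2 * (k : ℝ) + 1) ^ 2) ≤ L := by
        refine le_trans ?_ hL
        calc E1 * s * (16 * (2 * (k : ℝ) + 1) ^ 2) ≤ E1 * s * E2 := by gcongr
          _ = _ := by ring
      have h4 : 0.47 ≤ E1 * s := by nlinarith
      have h5 : 2 * (2 * (k : ℝ) + 1) + 2 * k < 0.47 * (12 * (2 * (k : ℝ) + 1) ^ 2) := by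
        nlinarith
      have h6 : 0.47 * (12 * (2 * (k : ℝ) + 1) ^ 2) ≤ E1 * s * (12 * (2 * (k : ℝ) + 1) ^ 2) := by
        gcongr
      linarith
    have hLk' : 2 * (2 * k + 1) + 2 * k < L := by
      have h3 : (0 : ℝ) ≤ 4 * ((2 * (k : ℝ) + 1) ^ 2 * (E1 * s)) := by positivity
      have h4 : 2 * (2 * (k : ℝ) + 1) + 2 * k < L := by linarith
      exact_mod_cast h4
    obtain ⟨t, ht⟩ := T9h33.Hole.hole (N := N) (ω := ω) (k := k) (b := (a.1 + k, a.2 + k))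
      (l := L - 2 * k) (by
        intro y hy
        rw [T9h33.Hole.mem_Q] at hy
        simp only at hy
        by_contra hcov
        push Not at hcov
        apply hno
        exact ⟨y, by omega, by omega, hcov⟩) (by omega)
    have h3 := hca t
    have h4 : ((L - 2 * k : ℕ) : ℝ) ≤ 4 * ((2 * (k : ℝ) + 1) ^ 2 *
        ca N t (2 * k + 1) ω) := by exact_mod_cast ht
    rw [Nat.cast_sub (by omega)] at h4
    push_cast at h4
    have h5 : 4 * ((2 * (k : ℝ) + 1) ^ 2 * ca N t (2 * k + 1) ω) ≤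
        4 * ((2 * (k : ℝ) + 1) ^ 2 * (E1 * s)) := by gcongr
    linarith

end Pool.Agent.T9h81.SP
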