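import Pool.Agent.T9h33.Fi
import Pool.Agent.TH508.LT.Fin2

/-!
Close approaches in uniform self-avoiding polygons, from those of walks: a polygon minus one edge is
a walk, and the share of the walks which close up is at least quasi-polynomially small.
-/

set_option autoImplicit false

namespace Pool.Agent.T9h81.SP

open Pool.Agent.W840.CT (SW cn SW_finite cn_pos cn_eq)
open Pool.Agent.T9h33.Ca (ca d1)

/-- the walk which follows the polygon `f` from `f s` on, translated to the origin -/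
def wk (q : ℕ) (s : ZMod (2 * (q + 1))) (f : ZMod (2 * (q + 1)) → ℤ × ℤ) :
    Fin (2 * q + 1 + 1) → ℤ × ℤ :=
  fun i => f (s + ((i : ℕ) : ZMod (2 * (q + 1)))) - f s

theorem cast_inj' {q a b : ℕ} (ha : a < 2 * (q + 1)) (hb : b < 2 * (q + 1))
    (h : (a : ZMod (2 * (q + 1))) = (b : ZMod (2 * (q + 1)))) : a = b := by
  have h4 := congrArg ZMod.val h
  rwa [ZMod.val_natCast, Nat.mod_eq_of_lt ha, ZMod.val_natCast, Nat.mod_eq_of_lt hb] at h4

theorem wk_saw {q : ℕ} (s : ZMod (2 * (q + 1))) {f : ZMod (2 * (q + 1)) → ℤ × ℤ}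
    (hf : H981.IsLoop (2 * (q + 1)) f) : SW (2 * q + 1) (wk q s f) := by
  obtain ⟨h0, hinj, hadj⟩ := hf
  refine ⟨?_, fun i => ?_, fun i j hij => ?_⟩
  · unfold wk
    simp
    rfl
  · have h := hadj (s + ((i : ℕ) : ZMod (2 * (q + 1))))
    unfold wk
    have e : s + (((i.succ : Fin (2 * q + 1 + 1)) : ℕ) : ZMod (2 * (q + 1))) =
        s + ((i : ℕ) : ZMod (2 * (q + 1))) + 1 := by
      rw [Fin.val_succ]
      push_cast
      ring
    rw [e, Fin.val_castSucc]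
    simpa using h
  · unfold wk at hij
    have h1 : f (s + ((i : ℕ) : ZMod (2 * (q + 1)))) = f (s + ((j : ℕ) : ZMod (2 * (q + 1)))) := by
      have := congrArg (fun z => z + f s) hij
      simpa using this
    have h2 := hinj h1
    have h3 : ((i : ℕ) : ZMod (2 * (q + 1))) = ((j : ℕ) : ZMod (2 * (q + 1))) := by
      simpa using h2
    exact Fin.ext (cast_inj' (by omega) (by omega) h3)

theorem wk_at {q : ℕ} (s i : ZMod (2 * (q + 1))) (f : ZMod (2 * (q + 1)) → ℤ × ℤ) :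
    wk q s f ⟨i.val, by have := ZMod.val_lt i; omega⟩ = f (s + i) - f s := by
  unfold wk
  simp

theorem wk_inj {q : ℕ} (s : ZMod (2 * (q + 1))) {f g : ZMod (2 * (q + 1)) → ℤ × ℤ}
    (hf : f 0 = 0) (hg : g 0 = 0) (h : wk q s f = wk q s g) : f = g := by
  have h1 : ∀ i, f (s + i) - f s = g (s + i) - g s := fun i => by
    rw [← wk_at, ← wk_at, h]
  have h2 := h1 (-s)
  rw [add_neg_cancel, hf, hg, zero_sub, zero_sub, neg_inj] at h2
  funext i
  have h3 := h1 (i - s)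
  rw [add_sub_cancel, h2] at h3
  simpa using h3

/-- the set of the rooted polygons -/
def pl (q : ℕ) : Set (ZMod (2 * (q + 1)) → ℤ × ℤ) := {f | H981.IsLoop (2 * (q + 1)) f}

theorem pl_finite (q : ℕ) : (pl q).Finite := by
  refine Set.Finite.of_finite_image (f := wk q 0) ?_ ?_
  · refine (SW_finite (2 * q + 1)).subset ?_
    rintro _ ⟨f, hf, rfl⟩
    exact wk_saw 0 hf
  · intro f hf g hg h
    exact wk_inj 0 hf.1 hg.1 h

theorem pl_card {q : ℕ} : ((pl q).ncard : ℝ) = 4 * ((q : ℝ) + 1) * H981.PP (q + 1) := by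
  unfold H981.PP
  have h : (pl q).ncard = Nat.card {f : ZMod (2 * (q + 1)) → ℤ × ℤ // H981.IsLoop (2 * (q + 1)) f} :=
    (Nat.card_coe_set_eq _).symm
  rw [h]
  push_cast
  field_simp

/-- **Close approaches of the arcs of a polygon.** -/
theorem main : ∃ K : ℝ, 1 ≤ K ∧ ∀ q : ℕ, 1 ≤ q → ∀ x : ℝ, 0 ≤ x →
    (({f | f ∈ pl q ∧ ∃ (s : ZMod (2 * (q + 1))) (t k : ℕ), 1 ≤ k ∧
      Real.exp (K * Real.log (k + 1) ^ 4) * (Real.log ((q : ℝ) + 1) ^ 2 + x) <
        ca (2 * q + 1) t k (wk q s f)}).ncard : ℝ) ≤ Real.exp (-x) * (pl q).ncard := by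
  obtain ⟨K0, hK0, h0⟩ := Pool.Agent.T9h33.Fi.main
  obtain ⟨K1, hK1, h1⟩ := Pool.Agent.TH508.LT.sq_PP2
  obtain ⟨K2, hK2, h2⟩ := Pool.Agent.TH508.LT.sq_upper2
  obtain ⟨C, hC⟩ : ∃ C, C = 4 + 4 * K2 + K1 := ⟨_, rfl⟩
  have hC1 : 1 ≤ C := by rw [hC]; linarith
  have hlC : 0 ≤ Real.log C := Real.log_nonneg hC1
  refine ⟨K0 + 5 * Real.log C, by linarith, fun q hq x hx => ?_⟩
  obtain ⟨l, hl⟩ : ∃ l, l = Real.log ((q : ℝ) + 1) := ⟨_, rfl⟩
  obtain ⟨x', hx'⟩ : ∃ x', x' = x + (4 * K2 + K1) * l ^ 2 := ⟨_, rfl⟩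
  have hx'0 : 0 ≤ x' := by rw [hx']; positivity
  have hq' : (1 : ℝ) ≤ q := by exact_mod_cast hq
  have hlog2 : (0.69 : ℝ) < Real.log 2 := by
    have := Real.log_two_gt_d9
    linarith
  have hl2 : Real.log 2 ≤ l := by
    rw [hl]
    exact Real.log_le_log (by norm_num) (by linarith)
  have hlN : Real.log ((2 * q + 1 : ℕ) : ℝ) ≤ 2 * l := by
    have e : (((2 * q + 1 : ℕ) : ℝ)) ≤ 2 * ((q : ℝ) + 1) := by push_cast; linarith
    calc Real.log ((2 * q + 1 : ℕ) : ℝ) ≤ Real.log (2 * ((q : ℝ) + 1)) :=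
          Real.log_le_log (by positivity) e
      _ = Real.log 2 + l := by rw [Real.log_mul (by norm_num) (by positivity), hl]
      _ ≤ 2 * l := by linarith
  have hlN0 : 0 ≤ Real.log ((2 * q + 1 : ℕ) : ℝ) := Real.log_natCast_nonneg _
  have hlN2 : Real.log ((2 * q + 1 : ℕ) : ℝ) ^ 2 ≤ 4 * l ^ 2 := by
    calc _ ≤ (2 * l) ^ 2 := pow_le_pow_left₀ hlN0 hlN 2
      _ = 4 * l ^ 2 := by ring
  have h0' := h0 (2 * q + 1) (by omega) x' hx'0
  rw [← hl]
  obtain ⟨W, hW⟩ : ∃ W : Set (Fin (2 * q + 1 + 1) → ℤ × ℤ), W = {ω | SW (2 * q + 1) ω ∧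
      ∃ t k : ℕ, 1 ≤ k ∧ Real.exp (K0 * Real.log (k + 1) ^ 4) *
        (Real.log ((2 * q + 1 : ℕ) : ℝ) ^ 2 + x') < ca (2 * q + 1) t k ω} := ⟨_, rfl⟩
  rw [← hW] at h0'
  have hWf : W.Finite := by
    rw [hW]
    exact (SW_finite _).subset (fun ω hω => hω.1)
  -- the bad polygons
  have hsub : {f | f ∈ pl q ∧ ∃ (s : ZMod (2 * (q + 1))) (t k : ℕ), 1 ≤ k ∧
      Real.exp ((K0 + 5 * Real.log C) * Real.log (k + 1) ^ 4) * (l ^ 2 + x) <
        ca (2 * q + 1) t k (wk q s f)} ⊆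
      ⋃ s : ZMod (2 * (q + 1)), {f | f ∈ pl q ∧ wk q s f ∈ W} := by
    rintro f ⟨hf, s, t, k, hk, hlt⟩
    rw [Set.mem_iUnion]
    refine ⟨s, hf, ?_⟩
    rw [hW]
    refine ⟨wk_saw s hf, t, k, hk, lt_of_le_of_lt ?_ hlt⟩
    have hk' : (1 : ℝ) ≤ k := by exact_mod_cast hk
    have hlk : Real.log 2 ≤ Real.log ((k : ℝ) + 1) := Real.log_le_log (by norm_num) (by linarith)
    have hlk4 : (1 : ℝ) ≤ 5 * Real.log ((k : ℝ) + 1) ^ 4 := by
      have : (0.69 : ℝ) ^ 4 ≤ Real.log ((k : ℝ) + 1) ^ 4 :=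
        pow_le_pow_left₀ (by norm_num) (by linarith) 4
      norm_num at this
      linarith
    have hCe : C ≤ Real.exp (5 * Real.log C * Real.log ((k : ℝ) + 1) ^ 4) := by
      calc C = Real.exp (Real.log C) := (Real.exp_log (by linarith)).symm
        _ ≤ _ := Real.exp_le_exp.2 (by nlinarith)
    have hs : Real.log ((2 * q + 1 : ℕ) : ℝ) ^ 2 + x' ≤ C * (l ^ 2 + x) := by
      rw [hx', hC]
      nlinarith
    have hs0 : 0 ≤ l ^ 2 + x := by positivity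
    calc Real.exp (K0 * Real.log (k + 1) ^ 4) * (Real.log ((2 * q + 1 : ℕ) : ℝ) ^ 2 + x')
        ≤ Real.exp (K0 * Real.log (k + 1) ^ 4) * (C * (l ^ 2 + x)) := by gcongr
      _ ≤ Real.exp (K0 * Real.log (k + 1) ^ 4) *
          (Real.exp (5 * Real.log C * Real.log ((k : ℝ) + 1) ^ 4) * (l ^ 2 + x)) := by gcongr
      _ = Real.exp ((K0 + 5 * Real.log C) * Real.log (k + 1) ^ 4) * (l ^ 2 + x) := by
          rw [← mul_assoc, ← Real.exp_add]
          congr 2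
          ring
  have hfin : ∀ s : ZMod (2 * (q + 1)), {f | f ∈ pl q ∧ wk q s f ∈ W}.Finite :=
    fun s => (pl_finite q).subset (fun f hf => hf.1)
  have hone : ∀ s : ZMod (2 * (q + 1)), {f | f ∈ pl q ∧ wk q s f ∈ W}.ncard ≤ W.ncard := by
    intro s
    refine Set.ncard_le_ncard_of_injOn (wk q s) (fun f hf => hf.2) ?_ hWf
    intro f hf g hg h
    exact wk_inj s hf.1.1 hg.1.1 h
  have hcard : (⋃ s : ZMod (2 * (q + 1)), {f | f ∈ pl q ∧ wk q s f ∈ W}).ncard ≤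
      2 * (q + 1) * W.ncard := by
    calc _ ≤ ∑ s : ZMod (2 * (q + 1)), {f | f ∈ pl q ∧ wk q s f ∈ W}.ncard :=
          Set.ncard_iUnion_le_of_fintype _
      _ ≤ ∑ s : ZMod (2 * (q + 1)), W.ncard := Finset.sum_le_sum (fun s _ => hone s)
      _ = 2 * (q + 1) * W.ncard := by
          rw [Finset.sum_const, Finset.card_univ, ZMod.card, smul_eq_mul]
  have hle : ({f | f ∈ pl q ∧ ∃ (s : ZMod (2 * (q + 1))) (t k : ℕ), 1 ≤ k ∧
      Real.exp ((K0 + 5 * Real.log C) * Real.log (k + 1) ^ 4) * (l ^ 2 + x) <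
        ca (2 * q + 1) t k (wk q s f)}).ncard ≤ 2 * (q + 1) * W.ncard :=
    (Set.ncard_le_ncard hsub (Set.finite_iUnion hfin)).trans hcard
  have hle' : (({f | f ∈ pl q ∧ ∃ (s : ZMod (2 * (q + 1))) (t k : ℕ), 1 ≤ k ∧
      Real.exp ((K0 + 5 * Real.log C) * Real.log (k + 1) ^ 4) * (l ^ 2 + x) <
        ca (2 * q + 1) t k (wk q s f)}).ncard : ℝ) ≤ 2 * ((q : ℝ) + 1) * W.ncard := by
    exact_mod_cast hle
  refine hle'.trans ?_
  -- numbers of walks and of polygons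
  have hmu : 1 ≤ H981.mu := H981.one_le_mu
  have hmu0 := H981.mu_pos
  have hcn : (cn (2 * q + 1) : ℝ) ≤ H981.mu ^ (2 * (q + 1)) * Real.exp (4 * K2 * l ^ 2) := by
    rw [cn_eq]
    refine (h2 (2 * q + 1) (by omega)).trans ?_
    have e1 : H981.mu ^ (2 * q + 1) ≤ H981.mu ^ (2 * (q + 1)) :=
      pow_le_pow_right₀ hmu (by omega)
    have e2 : Real.exp (K2 * Real.log ((2 * q + 1 : ℕ) : ℝ) ^ 2) ≤ Real.exp (4 * K2 * l ^ 2) := by
      apply Real.exp_le_exp.2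
      calc _ ≤ K2 * (4 * l ^ 2) := by gcongr
        _ = _ := by ring
    exact mul_le_mul e1 e2 (Real.exp_pos _).le (by positivity)
  have hpl : 4 * ((q : ℝ) + 1) * (H981.mu ^ (2 * (q + 1)) * Real.exp (-(K1 * l ^ 2))) ≤
      (pl q).ncard := by
    rw [pl_card]
    have h3 := (h1 (q + 1) (by omega)).1
    push_cast at h3
    rw [← hl] at h3
    gcongr
  calc 2 * ((q : ℝ) + 1) * W.ncard ≤ 2 * ((q : ℝ) + 1) * (Real.exp (-x') * cn (2 * q + 1)) := by
        gcongr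
    _ ≤ 2 * ((q : ℝ) + 1) * (Real.exp (-x') *
        (H981.mu ^ (2 * (q + 1)) * Real.exp (4 * K2 * l ^ 2))) := by gcongr
    _ = Real.exp (-x) * (2 * ((q : ℝ) + 1) *
        (H981.mu ^ (2 * (q + 1)) * Real.exp (-(K1 * l ^ 2)))) := by
        have e : Real.exp (-x') * Real.exp (4 * K2 * l ^ 2) =
            Real.exp (-x) * Real.exp (-(K1 * l ^ 2)) := by
          rw [← Real.exp_add, ← Real.exp_add]
          congr 1
          rw [hx']
          ring
        calc _ = 2 * ((q : ℝ) + 1) * H981.mu ^ (2 * (q + 1)) *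
              (Real.exp (-x') * Real.exp (4 * K2 * l ^ 2)) := by ring
          _ = _ := by rw [e]; ring
    _ ≤ Real.exp (-x) * (4 * ((q : ℝ) + 1) *
        (H981.mu ^ (2 * (q + 1)) * Real.exp (-(K1 * l ^ 2)))) := by
        have e3 : 0 ≤ ((q : ℝ) + 1) * (H981.mu ^ (2 * (q + 1)) * Real.exp (-(K1 * l ^ 2))) := by
          positivity
        have e4 : 0 ≤ Real.exp (-x) := (Real.exp_pos _).le
        apply mul_le_mul_of_nonneg_left _ e4
        linarith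
    _ ≤ Real.exp (-x) * (pl q).ncard := by gcongr

end Pool.Agent.T9h81.SP
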