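import Pool.Agent.T9h81.SP.Poly

/-!
Few close approaches between arcs: between a set of indices and its complement, and at a large
distance along the polygon.
-/

set_option autoImplicit false

namespace Pool.Agent.T9h81.SP

open Pool.Agent.T9h33.Ca (ca d1)
open scoped Classical

theorem d1_wk {q : ℕ} (s : ZMod (2 * (q + 1))) (f : ZMod (2 * (q + 1)) → ℤ × ℤ)
    (i j : Fin (2 * q + 1 + 1)) :
    d1 (wk q s f i) (wk q s f j) =
      d1 (f (s + ((i : ℕ) : ZMod (2 * (q + 1))))) (f (s + ((j : ℕ) : ZMod (2 * (q + 1))))) := by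
  unfold d1 wk
  simp

/-- the close approaches at the end `t` of an arc from `s`, as indices of the polygon -/
noncomputable def cs (q : ℕ) (f : ZMod (2 * (q + 1)) → ℤ × ℤ) (s : ZMod (2 * (q + 1)))
    (t k : ℕ) : Finset (ZMod (2 * (q + 1))) :=
  (((Finset.univ : Finset (Fin (2 * q + 1 + 1))).filter
    (fun i => i.1 ≤ t ∧ ∃ j : Fin (2 * q + 1 + 1), t ≤ j.1 ∧
      d1 (wk q s f i) (wk q s f j) ≤ k))).image
    (fun i : Fin (2 * q + 1 + 1) => s + ((i : ℕ) : ZMod (2 * (q + 1))))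

theorem cs_card (q : ℕ) (f : ZMod (2 * (q + 1)) → ℤ × ℤ) (s : ZMod (2 * (q + 1)))
    (t k : ℕ) : (cs q f s t k).card ≤ ca (2 * q + 1) t k (wk q s f) := by
  unfold cs
  exact Finset.card_image_le

theorem mem_cs {q : ℕ} {f : ZMod (2 * (q + 1)) → ℤ × ℤ} {s : ZMod (2 * (q + 1))}
    {t k a b : ℕ} (ha : a ≤ t) (ha' : a < 2 * (q + 1)) (hb : t ≤ b) (hb' : b < 2 * (q + 1))
    (h : d1 (f (s + (a : ZMod (2 * (q + 1))))) (f (s + (b : ZMod (2 * (q + 1))))) ≤ k) :
    s + (a : ZMod (2 * (q + 1))) ∈ cs q f s t k := by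
  unfold cs
  rw [Finset.mem_image]
  refine ⟨⟨a, by omega⟩, ?_, rfl⟩
  rw [Finset.mem_filter]
  refine ⟨Finset.mem_univ _, ha, ⟨b, by omega⟩, hb, ?_⟩
  rw [d1_wk]
  exact h

/-- the set of indices which begin an arc of `S` -/
noncomputable def st (q : ℕ) (S : Set (ZMod (2 * (q + 1)))) : Finset (ZMod (2 * (q + 1))) :=
  Finset.univ.filter (fun s => s ∈ S ∧ s - 1 ∉ S)

/-- the length of the arc of `S` from `s` on -/
noncomputable def ln (q : ℕ) (S : Set (ZMod (2 * (q + 1)))) (s : ZMod (2 * (q + 1))) : ℕ :=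
  if h : ∃ b : ℕ, s + (b : ZMod (2 * (q + 1))) ∉ S then Nat.find h else 0

theorem ln_spec {q : ℕ} {S : Set (ZMod (2 * (q + 1)))} (hS : S ≠ Set.univ)
    (s : ZMod (2 * (q + 1))) :
    s + (ln q S s : ZMod (2 * (q + 1))) ∉ S ∧ ∀ b < ln q S s, s + (b : ZMod (2 * (q + 1))) ∈ S := by
  have h : ∃ b : ℕ, s + (b : ZMod (2 * (q + 1))) ∉ S := by
    obtain ⟨j, hj⟩ := (Set.ne_univ_iff_exists_notMem S).1 hS
    refine ⟨(j - s).val, ?_⟩
    rw [ZMod.natCast_zmod_val]
    simpa using hj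
  unfold ln
  rw [dif_pos h]
  exact ⟨Nat.find_spec h, fun b hb => by have := Nat.find_min h hb; simpa using this⟩

theorem sets {q k : ℕ} {f : ZMod (2 * (q + 1)) → ℤ × ℤ} {S : Set (ZMod (2 * (q + 1)))}
    {M : ℝ} (h : ∀ (s : ZMod (2 * (q + 1))) (t : ℕ), (ca (2 * q + 1) t k (wk q s f) : ℝ) ≤ M) :
    (Set.ncard {i | i ∈ S ∧ ∃ j, j ∉ S ∧ d1 (f i) (f j) ≤ k} : ℝ) ≤
      Set.ncard {i | ¬ (i ∈ S ↔ i - 1 ∈ S)} * M := by
  have hM : 0 ≤ M := (Nat.cast_nonneg _).trans (h 0 0)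
  by_cases hS : S = Set.univ
  · have he : {i | i ∈ S ∧ ∃ j, j ∉ S ∧ d1 (f i) (f j) ≤ k} = ∅ := by
      ext i
      simp [hS]
    rw [he, Set.ncard_empty, Nat.cast_zero]
    positivity
  have hsub : {i | i ∈ S ∧ ∃ j, j ∉ S ∧ d1 (f i) (f j) ≤ k} ⊆
      ((st q S).biUnion (fun s => cs q f s (ln q S s) k) : Finset (ZMod (2 * (q + 1)))) := by
    rintro i ⟨hi, j, hj, hd⟩
    rw [Finset.mem_coe, Finset.mem_biUnion]
    -- go back to the start of the arc
    have hex : ∃ a : ℕ, i - (a : ZMod (2 * (q + 1))) ∉ S := by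
      refine ⟨(i - j).val, ?_⟩
      rw [ZMod.natCast_zmod_val]
      simpa using hj
    obtain ⟨a, ha⟩ : ∃ a, a = Nat.find hex := ⟨_, rfl⟩
    have ha1 : i - (a : ZMod (2 * (q + 1))) ∉ S := by rw [ha]; exact Nat.find_spec hex
    have ha2 : ∀ b < a, i - (b : ZMod (2 * (q + 1))) ∈ S := fun b hb => by
      rw [ha] at hb
      have := Nat.find_min hex hb
      simpa using this
    have ha0 : a ≠ 0 := by
      rintro rfl
      simp at ha1
      exact ha1 hi
    obtain ⟨c, rfl⟩ : ∃ c, a = c + 1 := ⟨a - 1, by omega⟩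
    obtain ⟨s, hs⟩ : ∃ s, s = i - (c : ZMod (2 * (q + 1))) := ⟨_, rfl⟩
    have hi' : i = s + (c : ZMod (2 * (q + 1))) := by rw [hs]; ring
    have hsS : s ∈ S := by rw [hs]; exact ha2 c (by omega)
    have hsS' : s - 1 ∉ S := by
      have e : s - 1 = i - ((c + 1 : ℕ) : ZMod (2 * (q + 1))) := by rw [hs]; push_cast; ring
      rw [e]
      exact ha1
    obtain ⟨l1, l2⟩ := ln_spec hS s
    have hc : c < ln q S s := by
      by_contra hge
      push Not at hge
      apply l1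
      have h3 := ha2 (c - ln q S s) (by omega)
      have e : i - ((c - ln q S s : ℕ) : ZMod (2 * (q + 1))) =
          s + (ln q S s : ZMod (2 * (q + 1))) := by
        rw [Nat.cast_sub hge, hi']
        ring
      rwa [e] at h3
    have hl : ln q S s < 2 * (q + 1) := by
      by_contra hge
      push Not at hge
      have h3 := l2 (j - s).val (lt_of_lt_of_le (ZMod.val_lt _) hge)
      rw [ZMod.natCast_zmod_val] at h3
      apply hj
      simpa using h3
    refine ⟨s, ?_, ?_⟩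
    · unfold st
      rw [Finset.mem_filter]
      exact ⟨Finset.mem_univ _, hsS, hsS'⟩
    · rw [hi']
      have hjv : s + (((j - s).val : ℕ) : ZMod (2 * (q + 1))) = j := by
        rw [ZMod.natCast_zmod_val]
        ring
      refine mem_cs (b := (j - s).val) hc.le (by omega) ?_ (ZMod.val_lt _) ?_
      · by_contra hlt
        push Not at hlt
        have h3 := l2 _ hlt
        rw [hjv] at h3
        exact hj h3
      · rw [hjv, ← hi']
        exact hd
  have h1 : Set.ncard {i | i ∈ S ∧ ∃ j, j ∉ S ∧ d1 (f i) (f j) ≤ k} ≤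
      ∑ s ∈ st q S, (cs q f s (ln q S s) k).card := by
    refine (Set.ncard_le_ncard hsub (Finset.finite_toSet _)).trans ?_
    rw [Set.ncard_coe_finset]
    exact Finset.card_biUnion_le
  have h2 : ((∑ s ∈ st q S, (cs q f s (ln q S s) k).card : ℕ) : ℝ) ≤ (st q S).card * M := by
    push_cast
    calc ∑ s ∈ st q S, ((cs q f s (ln q S s) k).card : ℝ) ≤ ∑ s ∈ st q S, M := by
          apply Finset.sum_le_sum
          intro s _
          refine le_trans ?_ (h s (ln q S s))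
          exact_mod_cast cs_card q f s (ln q S s) k
      _ = (st q S).card * M := by rw [Finset.sum_const, nsmul_eq_mul]
  have h3 : (st q S).card ≤ Set.ncard {i | ¬ (i ∈ S ↔ i - 1 ∈ S)} := by
    rw [← Set.ncard_coe_finset]
    refine Set.ncard_le_ncard ?_ (Set.toFinite _)
    intro s hs
    rw [Finset.mem_coe] at hs
    unfold st at hs
    rw [Finset.mem_filter] at hs
    change ¬ (s ∈ S ↔ s - 1 ∈ S)
    tauto
  calc (Set.ncard {i | i ∈ S ∧ ∃ j, j ∉ S ∧ d1 (f i) (f j) ≤ k} : ℝ)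
      ≤ ((∑ s ∈ st q S, (cs q f s (ln q S s) k).card : ℕ) : ℝ) := by exact_mod_cast h1
    _ ≤ (st q S).card * M := h2
    _ ≤ _ := by gcongr

/-- the distance along the polygon of two indices of the same arc with `m` indices is less
than `m` -/
theorem dist_lt {q m a b : ℕ} (ha : a < m) (hb : b < m) (s : ZMod (2 * (q + 1))) :
    ((s + (a : ZMod (2 * (q + 1)))) - (s + (b : ZMod (2 * (q + 1))))).valMinAbs.natAbs < m := by
  have e : (s + (a : ZMod (2 * (q + 1)))) - (s + (b : ZMod (2 * (q + 1)))) =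
      (((a : ℤ) - b : ℤ) : ZMod (2 * (q + 1))) := by push_cast; ring
  rw [e]
  have h : (((a : ℤ) - b : ℤ) : ZMod (2 * (q + 1))).valMinAbs.natAbs ≤ ((a : ℤ) - b).natAbs :=
    ZMod.natAbs_min_of_le_div_two (2 * (q + 1)) _ _ (by rw [ZMod.coe_valMinAbs])
      (ZMod.natAbs_valMinAbs_le _)
  omega

theorem far {q k m : ℕ} {f : ZMod (2 * (q + 1)) → ℤ × ℤ} (hm : 1 ≤ m)
    {M : ℝ} (h : ∀ (s : ZMod (2 * (q + 1))) (t : ℕ), (ca (2 * q + 1) t k (wk q s f) : ℝ) ≤ M) :
    (Set.ncard {i : ZMod (2 * (q + 1)) | ∃ j, m ≤ (i - j).valMinAbs.natAbs ∧ d1 (f i) (f j) ≤ k} : ℝ)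
      ≤ ((q : ℝ) + 1) / m * (3 * M) := by
  have hM : 0 ≤ M := (Nat.cast_nonneg _).trans (h 0 0)
  have hm' : (1 : ℝ) ≤ m := by exact_mod_cast hm
  by_cases hmq : q + 1 < m
  · have he : {i : ZMod (2 * (q + 1)) | ∃ j, m ≤ (i - j).valMinAbs.natAbs ∧ d1 (f i) (f j) ≤ k} =
        ∅ := by
      rw [Set.eq_empty_iff_forall_notMem]
      rintro i ⟨j, hj, -⟩
      have := ZMod.natAbs_valMinAbs_le (i - j)
      omega
    rw [he, Set.ncard_empty, Nat.cast_zero]
    positivity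
  push Not at hmq
  obtain ⟨R, hR⟩ : ∃ R, R = 2 * (q + 1) / m + 1 := ⟨_, rfl⟩
  have hsub : {i : ZMod (2 * (q + 1)) | ∃ j, m ≤ (i - j).valMinAbs.natAbs ∧ d1 (f i) (f j) ≤ k} ⊆
      ((Finset.range R).biUnion
        (fun r => cs q f ((r * m : ℕ) : ZMod (2 * (q + 1))) (m - 1) k) :
        Finset (ZMod (2 * (q + 1)))) := by
    rintro i ⟨j, hj, hd⟩
    rw [Finset.mem_coe, Finset.mem_biUnion]
    have hv := ZMod.val_lt i
    have hmod := Nat.mod_lt i.val (show 0 < m by omega)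
    have hdiv := Nat.div_add_mod i.val m
    refine ⟨i.val / m, ?_, ?_⟩
    · rw [Finset.mem_range, hR]
      have : i.val / m ≤ 2 * (q + 1) / m := Nat.div_le_div_right hv.le
      omega
    · obtain ⟨s, hs⟩ : ∃ s, s = ((i.val / m * m : ℕ) : ZMod (2 * (q + 1))) := ⟨_, rfl⟩
      have hi' : i = s + ((i.val % m : ℕ) : ZMod (2 * (q + 1))) := by
        rw [hs, ← Nat.cast_add]
        have e : i.val / m * m + i.val % m = i.val := by rw [mul_comm]; exact hdiv
        rw [e, ZMod.natCast_zmod_val]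
      have hjv : s + (((j - s).val : ℕ) : ZMod (2 * (q + 1))) = j := by
        rw [ZMod.natCast_zmod_val]
        ring
      rw [← hs]
      have hgoal : s + ((i.val % m : ℕ) : ZMod (2 * (q + 1))) ∈ cs q f s (m - 1) k := by
        refine mem_cs (b := (j - s).val) (by omega) (by omega) ?_ (ZMod.val_lt _) ?_
        · by_contra hlt
          push Not at hlt
          have h3 := dist_lt (a := i.val % m) (b := (j - s).val) hmod (by omega) s
          rw [hjv, ← hi'] at h3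
          omega
        · rw [hjv, ← hi']
          exact hd
      rwa [← hi'] at hgoal
  have h1 : Set.ncard {i : ZMod (2 * (q + 1)) | ∃ j, m ≤ (i - j).valMinAbs.natAbs ∧
      d1 (f i) (f j) ≤ k} ≤
      ∑ r ∈ Finset.range R, (cs q f ((r * m : ℕ) : ZMod (2 * (q + 1))) (m - 1) k).card := by
    refine (Set.ncard_le_ncard hsub (Finset.finite_toSet _)).trans ?_
    rw [Set.ncard_coe_finset]
    exact Finset.card_biUnion_le
  have h2 : ((∑ r ∈ Finset.range R,
      (cs q f ((r * m : ℕ) : ZMod (2 * (q + 1))) (m - 1) k).card : ℕ) : ℝ) ≤ R * M := by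
    rw [Nat.cast_sum]
    calc ∑ r ∈ Finset.range R, ((cs q f ((r * m : ℕ) : ZMod (2 * (q + 1))) (m - 1) k).card : ℝ)
        ≤ ∑ r ∈ Finset.range R, M := by
          apply Finset.sum_le_sum
          intro r _
          refine le_trans ?_ (h ((r * m : ℕ) : ZMod (2 * (q + 1))) (m - 1))
          exact_mod_cast cs_card q f _ (m - 1) k
      _ = R * M := by rw [Finset.sum_const, nsmul_eq_mul, Finset.card_range]
  have hRr : (R : ℝ) ≤ 3 * (((q : ℝ) + 1) / m) := by
    have h3 : ((2 * (q + 1) / m : ℕ) : ℝ) ≤ ((2 * (q + 1) : ℕ) : ℝ) / m := Nat.cast_div_le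
    have h4 : 1 ≤ ((q : ℝ) + 1) / m := by
      rw [le_div_iff₀ (by linarith)]
      have : (m : ℝ) ≤ ((q + 1 : ℕ) : ℝ) := by exact_mod_cast hmq
      push_cast at this
      linarith
    rw [hR]
    push_cast at h3 ⊢
    rw [mul_div_assoc] at h3
    linarith
  calc (Set.ncard {i : ZMod (2 * (q + 1)) | ∃ j, m ≤ (i - j).valMinAbs.natAbs ∧
      d1 (f i) (f j) ≤ k} : ℝ) ≤ R * M := (by exact_mod_cast h1 : (_ : ℝ) ≤ _).trans h2
    _ ≤ 3 * (((q : ℝ) + 1) / m) * M := by gcongr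
    _ = ((q : ℝ) + 1) / m * (3 * M) := by ring

end Pool.Agent.T9h81.SP
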